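import Pool.Agent.H.MP_081165_co.K1

set_option autoImplicit false

namespace Pool.Agent.Results.MP_46d9e0_co.Lower

open Pool.Agent.H.MP_081165_co

theorem result (V : Type) [Fintype V] [DecidableEq V] (G : SimpleGraph V) [DecidableRel G.Adj]
    (hG : G.maxDegree = 4) (hA : (G.adjMatrix ℝ).IsHermitian) (i : Fin (Fintype.card V))
    (hi : (i : ℕ) + 1 = (Fintype.card V + 1) / 2 ∨ (i : ℕ) + 1 = (Fintype.card V + 2) / 2) :
    -Real.sqrt 3 ≤ hA.eigenvalues₀ i := by
  have : Nonempty V := Fintype.card_pos_iff.1 i.pos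
  have h := count G hG.le c3 1 (by norm_num)
  simp only [Int.cast_one, one_mul, Nat.cast_ofNat] at h
  by_contra c
  push Not at c
  let e := Fintype.equivOfCardEq (Fintype.card_fin (Fintype.card V))
  have s : (Finset.Ici i).map e.toEmbedding ⊆
      Finset.univ.filter fun v => (herm G).eigenvalues v < -Real.sqrt 3 := by
    intro v hv
    obtain ⟨j, hj, rfl⟩ := Finset.mem_map.1 hv
    refine Finset.mem_filter.2 ⟨Finset.mem_univ _, ?_⟩
    have : (herm G).eigenvalues (e j) = hA.eigenvalues₀ j := by
      simp [Matrix.IsHermitian.eigenvalues, e]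
    exact this ▸ (hA.eigenvalues₀_antitone (Finset.mem_Ici.1 hj)).trans_lt c
  have := Finset.card_le_card s
  rw [Finset.card_map, Fin.card_Ici] at this
  have := i.2
  omega

end Pool.Agent.Results.MP_46d9e0_co.Lower
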